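import Pool.Agent.Lib.MP_1f44d9_lc.Hard.Final
import Pool.Agent.Lib.MP_1f44d9_lc.Late.Final

/-!
The three preemptive scheduling problems parameterized by the number of distinct processing times:
`P | pmtn | ∑ U_j` is fixed-parameter tractable; `P | pmtn, r_j | ∑ C_j` and `P | pmtn | ∑ T_j` are
NP-hard with three distinct processing times and five machines, so they are not fixed-parameter
tractable (and not even in XP) unless `P = NP`.
-/

namespace Pool.Agent.Results.MP_1f44d9_lc.DistinctProcessingTimes

open Pool.Agent.Lib.PmtnHard

theorem result :
    -- `P | pmtn | ∑ U_j` is fixed-parameter tractable in the number of distinct processing times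
    (∃ (f : ℕ → ℕ) (c : ℕ), Computable f ∧
      DecidedInTime Input.word LateJobs fun I => f I.pbar * (I.word.length + 1) ^ c) ∧
    -- `P | pmtn, r_j | ∑ C_j`: NP-hardness of the restriction to five machines and at most three
    -- distinct processing times
    (NPHard (fun I : {I : Input // I.m = 5 ∧ I.pbar ≤ 3} => I.1.word)
        {I | I.1 ∈ SumCompletion} ∧
      -- not fixed-parameter tractable in the number of distinct processing times unless `P = NP`
      (FPT Input.word Input.pbar SumCompletion → ∀ L, InNP L → InP L) ∧
      -- not even in XP, and not even when the number of machines is added to the parameter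
      (XP Input.word (fun I => I.m + I.pbar) SumCompletion → ∀ L, InNP L → InP L)) ∧
    -- the same for `P | pmtn | ∑ T_j`
    (NPHard (fun I : {I : Input // I.m = 5 ∧ I.pbar ≤ 3} => I.1.word)
        {I | I.1 ∈ SumTardiness} ∧
      (FPT Input.word Input.pbar SumTardiness → ∀ L, InNP L → InP L) ∧
      (XP Input.word (fun I => I.m + I.pbar) SumTardiness → ∀ L, InNP L → InP L)) := by
  refine ⟨lateJobs_fpt, ⟨hard_of _ polyF_inputC inputC_mem inputC_restr,
      collapse_fpt _ polyF_inputC inputC_mem (B := 3) fun l => (inputC_restr l).2,
      collapse_xp _ polyF_inputC inputC_mem (B := 8) fun l => ?_⟩,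
    hard_of _ polyF_inputT inputT_mem inputT_restr,
    collapse_fpt _ polyF_inputT inputT_mem (B := 3) fun l => (inputT_restr l).2,
    collapse_xp _ polyF_inputT inputT_mem (B := 8) fun l => ?_⟩
  · have := inputC_restr l
    omega
  · have := inputT_restr l
    omega

end Pool.Agent.Results.MP_1f44d9_lc.DistinctProcessingTimes
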