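import Pool.Agent.Lib.MP_1f44d9_lc.Main

/-!
`P | pmtn | ∑ w_j U_j` as a mixed-integer linear program of polynomial size whose number of integer
unknowns is the number of distinct pairs `(p_j, w_j)`; for `P | pmtn | ∑ U_j` (all weights `1`) this
is the number of distinct processing times.
-/

namespace Pool.Agent.Results.MP_1f44d9_lc.LateJobsMILP

open Pool.Agent.Lib.MP_1f44d9_lc

theorem result (I : Inst) (v : ℕ) :
    -- the optimum is at most `v` iff the explicit program `milp I v` is feasible
    ((∃ σ : Schedule I, σ.cost ≤ v) ↔ (milp I v).Feasible) ∧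
    -- schedules with preemptions at integer times only are enough
    ((∃ σ : Schedule I, σ.Integral ∧ σ.cost ≤ v) ↔ (milp I v).Feasible) ∧
    -- number of integer unknowns
    Fintype.card (Cls I) = (Finset.univ.image (fun j => (I.p j, I.w j))).card ∧
    ((∀ j, I.w j = 1) → Fintype.card (Cls I) = (Finset.univ.image I.p).card) ∧
    -- number of real unknowns and of inequalities
    Fintype.card (Cls I × Tm I) ≤ I.n * (I.n + 1) ∧
    Fintype.card (Con I) ≤ (I.n + 2) ^ 2 ∧
    -- size of the (integer) coefficients
    (∀ r c, |(milp I v).A r c| ≤ coeffBound I v) ∧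
    (∀ r k, |(milp I v).B r k| ≤ 1) ∧
    (∀ r, |(milp I v).b r| ≤ coeffBound I v) :=
  ⟨(schedule_iff I v).trans (milp_iff I v).symm,
   (integral_schedule_iff I v).trans (milp_iff I v).symm,
   Fintype.card_coe _, card_cls_unweighted I, card_real_le I, card_con_le I,
   abs_A_le I v, abs_B_le I v, abs_b_le I v⟩

end Pool.Agent.Results.MP_1f44d9_lc.LateJobsMILP
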